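import Pool.Agent.KS6_8.LM.Kap
import Pool.Graph.R_seed8.Helper923.PPS.UnbN

/-!
# Integers `n` with `f(n) = F(n)`: asymptotic formula and average order

* `N(x) ~ g(Y(x), x)` for every cutoff `exp((log log x)^4) ≤ Y(x) ≤ x` (earlier run).
* New: for almost all `x` (logarithmic density) the same holds for every cutoff `Y(x) → ∞`.
* New: on logarithmic average `N(x)` is asymptotic to `κ x / log x` with the explicit constant
  `κ = ∑_m δ(m)/m ≥ 3/2`, `δ(m)` the logarithmic density of the set `E m` given by finitely many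
  conditions; equivalently `∑_{n<X, f(n)=F(n)} (log n)/n ~ κ log X`, and
  `∑_{n<X, f(n)=F(n)} 1/n ~ κ log log X`.
* `N(x) log x / x` is nevertheless unbounded, and `O(log log x)` (earlier run).
-/

set_option autoImplicit false

open Filter MeasureTheory

namespace Pool.Agent.Results.MP_98b61d_nt.AverageOrder

/-- `f n`: the sum over the primes dividing `n` of the largest power not exceeding `n` -/
def f (n : ℕ) : ℕ := ∑ p ∈ n.primeFactors, p ^ Nat.log p n

/-- admissible sets for `n`: contained in `{2,...,n}`, pairwise coprime, every prime factor of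
every element divides `n` -/
def Admissible (n : ℕ) (A : Finset ℕ) : Prop :=
  (∀ a ∈ A, 2 ≤ a ∧ a ≤ n) ∧ (∀ a ∈ A, ∀ b ∈ A, a ≠ b → Nat.Coprime a b) ∧
    ∀ a ∈ A, ∀ p : ℕ, p.Prime → p ∣ a → p ∣ n

open scoped Classical in
/-- `F n`: the maximal sum of an admissible set -/
noncomputable def F (n : ℕ) : ℕ :=
  ((Finset.Icc 2 n).powerset.filter (fun A => Admissible n A)).sup (fun A => ∑ a ∈ A, a)

open scoped Classical in
/-- the set of `1 ≤ n < x` with `f n = F n` -/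
noncomputable def S (x : ℝ) : Finset ℕ :=
  (Finset.Icc 1 ⌊x⌋₊).filter (fun n : ℕ => (n : ℝ) < x ∧ f n = F n)

/-- `N x`: the number of `1 ≤ n < x` with `f n = F n` -/
noncomputable def N (x : ℝ) : ℕ := (S x).card

/-- the largest power of `p` not exceeding the real number `t` -/
noncomputable def pw (p : ℕ) (t : ℝ) : ℕ := p ^ Nat.log p ⌊t⌋₊

/-- the explicit set of real numbers attached to the cofactor `m` -/
def I (m : ℕ) : Set ℝ :=
  {t : ℝ | 1 ≤ t ∧ ∀ e : ℕ, 2 ≤ e → e.primeFactors ⊆ m.primeFactors →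
    ((e : ℝ) ≤ t → (e : ℝ) ≤ ∑ p ∈ e.primeFactors, (pw p t : ℝ)) ∧
    (e ≤ m → t * ((e : ℝ) - 1) ≤ m * ∑ p ∈ e.primeFactors, (pw p t : ℝ))}

/-- the explicit main term with cofactors up to `y` -/
noncomputable def g (y x : ℝ) : ℝ :=
  1 / Real.log x * ∑ m ∈ Finset.Icc 1 ⌊y⌋₊, (volume (I m ∩ Set.Icc 1 x)).toReal / m

/-- the real `t ≥ 1` satisfying finitely many conditions attached to `m` -/
def E (m : ℕ) : Set ℝ :=
  {t : ℝ | 1 ≤ t ∧
    (∀ p q : ℕ, p.Prime → q.Prime → p ≠ q → p ∣ m → q ∣ m → t ≤ (pw p t : ℝ) + pw q t) ∧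
    (∀ p a : ℕ, p.Prime → p ∣ m → 1 ≤ a → p ^ a ≤ m → t * ((p : ℝ) ^ a - 1) ≤ m * pw p t)}

/-- `A` has logarithmic density `d`: the measure of the `τ ∈ [0, T]` with `exp τ ∈ A`, divided
by `T`, tends to `d` -/
def LogDens (A : Set ℝ) (d : ℝ) : Prop :=
  Tendsto (fun T : ℝ => (volume {τ : ℝ | 0 ≤ τ ∧ τ ≤ T ∧ Real.exp τ ∈ A}).toReal / T)
    atTop (nhds d)

theorem result :
    -- the asymptotic formula, with any cutoff `Y x` between `exp ((log log x)^4)` and `x`
    (∀ Y : ℝ → ℝ,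
      (∀ᶠ x : ℝ in atTop, Real.exp ((Real.log (Real.log x)) ^ 4) ≤ Y x ∧ Y x ≤ x) →
      Tendsto (fun x : ℝ => (N x : ℝ) / g (Y x) x) atTop (nhds 1)) ∧
    -- with any cutoff tending to infinity, however slowly, for almost all `x`
    (∀ Y : ℝ → ℝ, Tendsto Y atTop atTop → (∀ᶠ x : ℝ in atTop, Y x ≤ x) → ∀ ε : ℝ, 0 < ε →
      LogDens {x : ℝ | ε < |(N x : ℝ) / g (Y x) x - 1|} 0) ∧
    -- the average order, with an explicit constant
    (∃ δ : ℕ → ℝ, (∀ m : ℕ, 1 ≤ m → LogDens (I m) (δ m) ∧ LogDens (E m) (δ m)) ∧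
      Summable (fun m : ℕ => δ m / m) ∧ 3 / 2 ≤ ∑' m : ℕ, δ m / m ∧
      Tendsto (fun X : ℝ => (∫ x in (1 : ℝ)..X, (N x : ℝ) * Real.log x / x ^ 2) / Real.log X)
        atTop (nhds (∑' m : ℕ, δ m / m)) ∧
      Tendsto (fun X : ℝ => (∑ n ∈ S X, Real.log n / n) / Real.log X)
        atTop (nhds (∑' m : ℕ, δ m / m)) ∧
      Tendsto (fun X : ℝ => (∑ n ∈ S X, (1 : ℝ) / n) / Real.log (Real.log X))
        atTop (nhds (∑' m : ℕ, δ m / m))) ∧
    -- upper bound
    (∃ C : ℝ, ∀ᶠ x : ℝ in atTop,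
      (N x : ℝ) ≤ C * (x * Real.log (Real.log x) / Real.log x)) ∧
    -- `x / log x` is not the true order
    (∀ C x0 : ℝ, ∃ x : ℝ, x0 ≤ x ∧ C * (x / Real.log x) ≤ N x) := by
  refine ⟨fun Y hY => Pool.Agent.Helper923.PPS.asymptotic_cut Y hY, ?_, ?_,
    Pool.Agent.Helper923.PPS.N_upper, Pool.Agent.Helper923.PPS.N_unbounded⟩
  · intro Y hY hY' ε hε
    exact Pool.Agent.KS6_8.LM.almost_all Y hY hY' hε
  · obtain ⟨δ, hδ, hsum, h32⟩ := Pool.Agent.KS6_8.LM.kappa_all
    refine ⟨δ, ?_, hsum, h32, ?_, ?_, ?_⟩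
    · intro m hm
      have hm0 : m ≠ 0 := by omega
      constructor
      · have h := hδ m hm0
        refine h.congr (fun T => ?_)
        have e1 : Pool.Agent.KS6_8.LM.J m ∩ Set.Icc 0 T =
            {τ : ℝ | 0 ≤ τ ∧ τ ≤ T ∧ Real.exp τ ∈ I m} := by
          ext τ
          constructor
          · rintro ⟨h1, h2, h3⟩
            exact ⟨h2, h3, h1⟩
          · rintro ⟨h1, h2, h3⟩
            exact ⟨h3, h1, h2⟩
        unfold Pool.Agent.KS6_8.LM.Mt
        rw [e1]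
      · exact Pool.Agent.KS6_8.LM.Eset_dens hm0 (hδ m hm0)
    · have h := Pool.Agent.KS6_8.LM.int_mean 0 δ hδ
      refine h.congr (fun X => ?_)
      congr 1
      apply intervalIntegral.integral_congr
      intro x _
      change (N x : ℝ) * ((Real.log x - 0) / x ^ 2) = (N x : ℝ) * Real.log x / x ^ 2
      ring
    · exact Pool.Agent.KS6_8.LM.log_mean δ hδ
    · exact Pool.Agent.KS6_8.LM.recip (Pool.Agent.KS6_8.LM.log_mean δ hδ)

end Pool.Agent.Results.MP_98b61d_nt.AverageOrder
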